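import Mathlib

/-!
# TOWERS, T4: `SL_m(ℤ)` is Zariski dense in `SL_m`
-/

set_option autoImplicit false

namespace Pool.Agent.Helper82.TW

open MvPolynomial Matrix

section one

variable {Ω : Type} [Field Ω] [CharZero Ω] {ι : Type} [Fintype ι] [DecidableEq ι]

/-- the value of a polynomial at a matrix -/
noncomputable def ev (F : MvPolynomial (ι × ι) Ω) (M : Matrix ι ι Ω) : Ω :=
  eval (fun p => M p.1 p.2) F

/-- integral approximation of `M` for the Zariski topology -/
def Good (M : Matrix ι ι Ω) : Prop :=
  ∀ F : MvPolynomial (ι × ι) Ω, ev F M ≠ 0 →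
    ∃ V : Matrix ι ι ℤ, V.det = 1 ∧ ev F (V.map (Int.cast : ℤ → Ω)) ≠ 0

/-- substitution of `X * B` -/
theorem exists_mul_right (F : MvPolynomial (ι × ι) Ω) (B : Matrix ι ι Ω) :
    ∃ G : MvPolynomial (ι × ι) Ω, ∀ A, ev G A = ev F (A * B) := by
  refine ⟨bind₁ (fun p : ι × ι => ∑ k, X (p.1, k) * C (B k p.2)) F, fun A => ?_⟩
  unfold ev
  rw [← coe_aeval_eq_eval, ← coe_aeval_eq_eval]
  change aeval _ (bind₁ _ F) = aeval _ F
  rw [aeval_bind₁]
  congr 2
  funext p
  simp [Matrix.mul_apply]

theorem exists_mul_left (F : MvPolynomial (ι × ι) Ω) (A : Matrix ι ι Ω) :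
    ∃ G : MvPolynomial (ι × ι) Ω, ∀ B, ev G B = ev F (A * B) := by
  refine ⟨bind₁ (fun p : ι × ι => ∑ k, C (A p.1 k) * X (k, p.2)) F, fun B => ?_⟩
  unfold ev
  rw [← coe_aeval_eq_eval, ← coe_aeval_eq_eval]
  change aeval _ (bind₁ _ F) = aeval _ F
  rw [aeval_bind₁]
  congr 2
  funext p
  simp [Matrix.mul_apply]

theorem Good.mul {A B : Matrix ι ι Ω} (hA : Good A) (hB : Good B) : Good (A * B) := by
  intro F hF
  obtain ⟨G, hG⟩ := exists_mul_right F B
  obtain ⟨V, hV, hV1⟩ := hA G (by rw [hG]; exact hF)
  rw [hG] at hV1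
  obtain ⟨G', hG'⟩ := exists_mul_left F (V.map (Int.cast : ℤ → Ω))
  obtain ⟨W, hW, hW1⟩ := hB G' (by rw [hG']; exact hV1)
  rw [hG'] at hW1
  refine ⟨V * W, by rw [det_mul, hV, hW, one_mul], ?_⟩
  have h : (V * W).map (Int.cast : ℤ → Ω) = V.map (Int.cast : ℤ → Ω) * W.map (Int.cast : ℤ → Ω) :=
    Matrix.map_mul (f := Int.castRingHom Ω)
  rw [h]
  exact hW1

theorem good_transvection {i j : ι} (hij : i ≠ j) (c : Ω) :
    Good (Matrix.transvection i j c) := by
  let g : ι × ι → Polynomial Ω := fun p =>
    Polynomial.C ((1 : Matrix ι ι Ω) p.1 p.2) + (if p = (i, j) then Polynomial.X else 0)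
  have hg : ∀ (x : Ω) (p : ι × ι), (g p).eval x = Matrix.transvection i j x p.1 p.2 := by
    intro x p
    simp only [g, Matrix.transvection, Matrix.add_apply, Matrix.single_apply]
    by_cases hp : p = (i, j)
    · subst hp; simp
    · rw [if_neg hp, if_neg]
      · simp
      · rintro ⟨h1, h2⟩
        exact hp (Prod.ext h1.symm h2.symm)
  have hP : ∀ (F : MvPolynomial (ι × ι) Ω) (x : Ω),
      (aeval g F : Polynomial Ω).eval x = ev F (Matrix.transvection i j x) := by
    intro F x
    unfold ev
    induction F using MvPolynomial.induction_on with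
    | C a => simp
    | add p q hp hq => rw [map_add, Polynomial.eval_add, map_add, hp, hq]
    | mul_X p n hp =>
      rw [map_mul, Polynomial.eval_mul, map_mul, aeval_X, hg, eval_X, hp]
  intro F hF
  have h1 : (aeval g F : Polynomial Ω) ≠ 0 := by
    intro h
    rw [← hP, h] at hF
    simp at hF
  obtain ⟨n, hn⟩ : ∃ n : ℤ, (aeval g F : Polynomial Ω).eval (n : Ω) ≠ 0 := by
    by_contra hc
    push Not at hc
    refine h1 (Polynomial.eq_zero_of_infinite_isRoot _ ?_)
    refine (Set.infinite_range_of_injective (Int.cast_injective (α := Ω))).mono ?_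
    rintro _ ⟨n, rfl⟩
    exact hc n
  refine ⟨Matrix.transvection i j n, Matrix.det_transvection_of_ne i j hij _, ?_⟩
  rw [hP] at hn
  convert hn using 2
  ext a b
  simp [Matrix.transvection, Matrix.one_apply, Matrix.single_apply]

theorem good_one [Nontrivial ι] : Good (1 : Matrix ι ι Ω) := by
  obtain ⟨i, j, hij⟩ := exists_pair_ne ι
  have h := good_transvection (Ω := Ω) hij 0
  rwa [Matrix.transvection_zero] at h

theorem diag2n_eq {i j : ι} (hij : i ≠ j) {a : Ω} (ha : a ≠ 0) :
    (SpecialLinearGroup.diag2n hij a ha).1 =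
      (transvection i j a * transvection j i (-a⁻¹) * transvection i j a) *
        (transvection i j (-1) * transvection j i 1 * transvection i j (-1)) := by
  rw [SpecialLinearGroup.diag2n_coe]
  have h1 : (Matrix.diagonal (fun k ↦ if k = i then a else if k = j then a⁻¹ else 1) :
      Matrix ι ι Ω) = 1 + Matrix.single i i (a - 1) + Matrix.single j j (a⁻¹ - 1) := by
    ext p q
    simp only [Matrix.diagonal_apply, Matrix.add_apply, Matrix.one_apply, Matrix.single_apply]
    by_cases hpq : p = q
    · subst hpq
      by_cases hp : p = i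
      · subst hp; simp [hij.symm]
      · by_cases hp' : p = j
        · subst hp'; simp [hij, hp]
        · simp [hp, hp', Ne.symm hp, Ne.symm hp']
    · simp only [hpq, if_false]
      rw [if_neg, if_neg]
      · simp
      · rintro ⟨h1, h2⟩; exact hpq (h1.symm.trans h2)
      · rintro ⟨h1, h2⟩; exact hpq (h1.symm.trans h2)
  rw [h1]
  simp only [Matrix.transvection, mul_add, add_mul, mul_one, one_mul, Matrix.single_mul_single_same,
    Matrix.single_mul_single_of_ne _ _ _ _ hij, Matrix.single_mul_single_of_ne _ _ _ _ hij.symm,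
    add_zero]
  ext p q
  simp only [Matrix.add_apply, Matrix.single_apply, Matrix.one_apply]
  by_cases h1 : i = p ∧ i = q
  · obtain ⟨h1, h2⟩ := h1
    subst h1
    subst h2
    simp only [and_self, if_true, hij.symm, false_and, if_false, and_false]
    field_simp
    ring
  · by_cases h2 : j = p ∧ j = q
    · obtain ⟨h2, h3⟩ := h2
      subst h2
      simp only [← h3, true_and, and_true, and_self, if_true, hij, false_and, if_false, and_false]
      field_simp
      ring
    · by_cases h3 : i = p ∧ j = q
      · obtain ⟨h3, h4⟩ := h3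
        subst h3 h4
        simp only [true_and, and_true, and_self, if_true, hij, hij.symm, false_and, if_false,
          and_false]
        field_simp
        ring
      · by_cases h4 : j = p ∧ i = q
        · obtain ⟨h4, h5⟩ := h4
          subst h4 h5
          simp only [true_and, and_true, and_self, if_true, hij, hij.symm, false_and, if_false,
            and_false]
          field_simp
          ring
        · simp only [h1, h2, h3, h4, if_false]
          ring

/-- every matrix of determinant one -/
theorem good_of_det (M : Matrix ι ι Ω) (hM : M.det = 1) : Good M := by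
  cases subsingleton_or_nontrivial ι with
  | inl h =>
    intro F hF
    refine ⟨1, Matrix.det_one, ?_⟩
    have h1 : M = (1 : Matrix ι ι ℤ).map (Int.cast : ℤ → Ω) := by
      ext a b
      have hab : a = b := Subsingleton.elim a b
      subst hab
      have : Unique ι := uniqueOfSubsingleton a
      have h2 : M.det = M a a := by
        rw [Matrix.det_unique]
        congr 1 <;> exact Subsingleton.elim _ _
      rw [Matrix.map_apply, Matrix.one_apply_eq, ← h2, hM]
      simp
    rwa [← h1]
  | inr h =>
    refine Matrix.SpecialLinearGroup.diagonal_transvection_induction'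
      (fun A : SpecialLinearGroup ι Ω => Good A.1) ⟨M, hM⟩ ?_ ?_ ?_
    · intro i j hij c hc
      rw [diag2n_eq hij hc]
      exact ((good_transvection hij _).mul (good_transvection hij.symm _)).mul
        (good_transvection hij _) |>.mul
        (((good_transvection hij _).mul (good_transvection hij.symm _)).mul
          (good_transvection hij _))
    · intro i j hij a
      exact good_transvection hij a
    · intro A B hA hB
      exact Good.mul hA hB

end one

section many

variable {Ω : Type} [Field Ω] [CharZero Ω] {r : ℕ} (m : Fin r → ℕ)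

/-- **T4**: families -/
theorem exists_slz (F : MvPolynomial (Σ i : Fin r, Fin (m i) × Fin (m i)) Ω)
    (U : ∀ i, Matrix (Fin (m i)) (Fin (m i)) Ω) (hU : ∀ i, (U i).det = 1)
    (hF : eval (fun x => U x.1 x.2.1 x.2.2) F ≠ 0) :
    ∃ V : ∀ i, Matrix (Fin (m i)) (Fin (m i)) ℤ, (∀ i, (V i).det = 1) ∧
      eval (fun x => (V x.1 x.2.1 x.2.2 : Ω)) F ≠ 0 := by
  classical
  -- replace the components one after the other
  have key : ∀ S : Finset (Fin r), ∃ W : ∀ i, Matrix (Fin (m i)) (Fin (m i)) Ω,
      (∀ i ∈ S, ∃ V : Matrix (Fin (m i)) (Fin (m i)) ℤ, V.det = 1 ∧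
        W i = V.map (Int.cast : ℤ → Ω)) ∧ (∀ i, (W i).det = 1) ∧
      eval (fun x => W x.1 x.2.1 x.2.2) F ≠ 0 := by
    intro S
    induction S using Finset.induction_on with
    | empty => exact ⟨U, by simp, hU, hF⟩
    | insert i S hi ih =>
      obtain ⟨W, hW1, hW2, hW3⟩ := ih
      let G : MvPolynomial (Fin (m i) × Fin (m i)) Ω :=
        bind₁ (fun x : Σ i : Fin r, Fin (m i) × Fin (m i) =>
          if h : x.1 = i then X (h ▸ x.2) else C (W x.1 x.2.1 x.2.2)) F
      have hG : ∀ A : Matrix (Fin (m i)) (Fin (m i)) Ω, ev G A =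
          eval (fun x => (Function.update W i A) x.1 x.2.1 x.2.2) F := by
        intro A
        unfold ev
        rw [← coe_aeval_eq_eval, ← coe_aeval_eq_eval]
        change aeval _ (bind₁ _ F) = aeval _ F
        rw [aeval_bind₁]
        congr 2
        funext x
        obtain ⟨j, p⟩ := x
        by_cases h : j = i
        · subst h
          simp
        · simp [h, Function.update_of_ne h]
      obtain ⟨V, hV, hV1⟩ := good_of_det (W i) (hW2 i) G (by
        rw [hG, Function.update_eq_self]; exact hW3)
      rw [hG] at hV1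
      refine ⟨Function.update W i (V.map (Int.cast : ℤ → Ω)), ?_, ?_, hV1⟩
      · intro j hj
        by_cases h : j = i
        · subst h
          exact ⟨V, hV, by simp⟩
        · rw [Function.update_of_ne h]
          exact hW1 j ((Finset.mem_insert.1 hj).resolve_left h)
      · intro j
        by_cases h : j = i
        · subst h
          rw [Function.update_self]
          have h5 : (V.map (Int.cast : ℤ → Ω)).det = ((V.det : ℤ) : Ω) :=
            (RingHom.map_det (Int.castRingHom Ω) V).symm
          rw [h5, hV]
          simp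
        · rw [Function.update_of_ne h]
          exact hW2 j
  obtain ⟨W, hW1, hW2, hW3⟩ := key Finset.univ
  choose V hV using fun i => hW1 i (Finset.mem_univ i)
  refine ⟨V, fun i => (hV i).1, ?_⟩
  have h6 : (fun x : Σ i : Fin r, Fin (m i) × Fin (m i) => (V x.1 x.2.1 x.2.2 : Ω)) =
      fun x => W x.1 x.2.1 x.2.2 := by
    funext x
    rw [(hV x.1).2]
    rfl
  rwa [h6]

end many

end Pool.Agent.Helper82.TW
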