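import Pool.Agent.Helper17.BR.Field
import Pool.Agent.Helper65.CL.Defs
import Pool.Agent.Helper82.BR.Compl

/-!
# TOWERS, piece T1: bad places lie over bad places
-/

set_option autoImplicit false

namespace Pool.Agent.Helper82.TW

open NumberField IsDedekindDomain Pool.Agent.Helper4.CB Pool.Agent.Helper69.CB
  Pool.Agent.Helper65.CL Pool.Agent.Helper82.BR

/-- the valuation at a place above is a power of the valuation at the place below -/
theorem vl_algebraMap {M L : Type} [Field M] [NumberField M] [Field L] [NumberField L]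
    [Algebra M L] (w : Pl L) :
    ∃ e : ℕ, e ≠ 0 ∧ ∀ x : M, vl w (algebraMap M L x) = vl (below M w) x ^ e :=
  ⟨(below M w).asIdeal.ramificationIdx' w.asIdeal,
    Ideal.IsDedekindDomain.ramificationIdx'_ne_zero_of_liesOver w.asIdeal (below M w).ne_bot,
    fun x => (HeightOneSpectrum.valuation_liesOver L (below M w) w x).symm⟩

theorem vl_algebraMap_le_one {M L : Type} [Field M] [NumberField M] [Field L] [NumberField L]
    [Algebra M L] (w : Pl L) (x : M) :
    vl w (algebraMap M L x) ≤ 1 ↔ vl (below M w) x ≤ 1 := by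
  obtain ⟨e, he, h⟩ := vl_algebraMap (M := M) w
  rw [h x]
  exact pow_le_one_iff he

theorem vl_algebraMap_eq_one {M L : Type} [Field M] [NumberField M] [Field L] [NumberField L]
    [Algebra M L] (w : Pl L) (x : M) :
    vl w (algebraMap M L x) = 1 ↔ vl (below M w) x = 1 := by
  obtain ⟨e, he, h⟩ := vl_algebraMap (M := M) w
  rw [h x]
  exact pow_eq_one_iff_of_nonneg zero_le he

/-- **T1b.** -/
theorem vl_below {M L : Type} [Field M] [NumberField M] [Field L] [NumberField L] [Algebra M L]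
    (w : Pl L) (x : M) :
    (vl w (algebraMap M L x) ≤ 1 ↔ vl (below M w) x ≤ 1) ∧
      (vl w (algebraMap M L x) = 1 ↔ vl (below M w) x = 1) :=
  ⟨vl_algebraMap_le_one w x, vl_algebraMap_eq_one w x⟩

/-- the norm above is a power of the norm below, the exponent is at most the degree -/
theorem nm_below {M L : Type} [Field M] [NumberField M] [Field L] [NumberField L]
    [Algebra M L] (w : Pl L) :
    ∃ f : ℕ, 0 < f ∧ f ≤ Module.finrank M L ∧ nm w = nm (below M w) ^ f := by
  have hmax : (below M w).asIdeal.IsMaximal := (below M w).isMaximal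
  refine ⟨(below M w).asIdeal.inertiaDeg' w.asIdeal, ?_, ?_, ?_⟩
  · exact Ideal.inertiaDeg'_pos _ _
  · have hns : NoZeroSMulDivisors (𝓞 M) (𝓞 L) := by
      refine ⟨fun {c x} h => ?_⟩
      rw [Algebra.smul_def, mul_eq_zero] at h
      exact h.imp_left fun h => (FaithfulSMul.algebraMap_injective (𝓞 M) (𝓞 L)) (by rw [h, map_zero])
    exact Ideal.inertiaDeg_le_finrank (S := 𝓞 L) M L w.asIdeal (below M w).ne_bot
  · exact Ideal.absNorm_eq_pow_inertiaDeg'_of_liesOver w.asIdeal (below M w).asIdeal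
      (below M w).isPrime (below M w).ne_bot

/-- a place of norm one modulo a power of a prime number does not divide this number -/
theorem not_mem_of_nm {M : Type} [Field M] [NumberField M] {l J : ℕ} (hJ : J ≠ 0) (hl : l.Prime)
    (p : Pl M) (h : l ^ J ∣ nm p - 1) : (l : 𝓞 M) ∉ p.asIdeal := by
  intro hmem
  have h2 := two_le_nm p
  have h1 : l ∣ nm p - 1 := (dvd_pow_self l hJ).trans h
  have h3 : nm p ∣ Ideal.absNorm (Ideal.span {(l : 𝓞 M)}) := by
    apply Ideal.absNorm_dvd_absNorm_of_le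
    rw [Ideal.span_singleton_le_iff_mem]
    exact hmem
  rw [Ideal.absNorm_span_natCast] at h3
  obtain ⟨q, hq, hqp⟩ := Nat.exists_prime_and_dvd (show nm p ≠ 1 by omega)
  have h4 : q ∣ l ^ Module.finrank ℤ (𝓞 M) := hqp.trans h3
  have h5 : q = l := (Nat.prime_dvd_prime_iff_eq hq hl).1 (hq.dvd_of_dvd_pow h4)
  subst h5
  have h6 : q ∣ 1 := by
    have := Nat.dvd_sub hqp h1
    rwa [show nm p - (nm p - 1) = 1 by omega] at this
  exact hl.one_lt.ne' (Nat.dvd_one.1 h6)

/-- **T1.** bad places lie over bad places -/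
theorem bad_below {M L : Type} [Field M] [NumberField M] [Field L] [NumberField L]
    [Algebra M L] {Λ : Finset ℕ} (hΛ : ∀ l ∈ Λ, l.Prime)
    (hζ : ∀ l ∈ Λ, ∃ ζ : M, IsPrimitiveRoot ζ l)
    (h4 : 2 ∈ Λ → ∃ i : M, IsPrimitiveRoot i 4) {J J1 : ℕ}
    (hJ : J + Module.finrank M L ≤ J1) (w : Pl L) (hw : Bad Λ J1 w) : Bad Λ J (below M w) := by
  obtain ⟨l, hl, hlw⟩ := hw
  refine ⟨l, hl, ?_⟩
  have hlp := hΛ l hl
  obtain ⟨f, hf0, hf1, hf⟩ := nm_below (M := M) w
  have hw2 := two_le_nm w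
  have hp2 := two_le_nm (below M w)
  have hfin : 0 < Module.finrank M L := hf0.trans_le hf1
  have hdw : l ^ J1 ∣ nm w - 1 := (Nat.modEq_iff_dvd' (by omega)).1 hlw.symm
  have hdw' : l ^ (J + Module.finrank M L) ∣ nm w - 1 := (pow_dvd_pow l hJ).trans hdw
  have hlw' : (l : 𝓞 L) ∉ w.asIdeal := not_mem_of_nm (by omega) hlp w hdw'
  have hlp' : (l : 𝓞 M) ∉ (below M w).asIdeal := by
    intro h
    apply hlw'
    have h1 : algebraMap (𝓞 M) (𝓞 L) (l : 𝓞 M) ∈ w.asIdeal := h
    rwa [map_natCast] at h1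
  by_contra hnot
  have hnd : ¬ l ^ J ∣ nm (below M w) - 1 := by
    intro h
    exact hnot ((Nat.modEq_iff_dvd' (by omega)).2 h).symm
  obtain ⟨ζ, hζ'⟩ := hζ l hl
  have h1 : l ∣ nm (below M w) - 1 := by
    have := Pool.Agent.Helper17.BR.dvd_absNorm_sub_one (J := 1) hlp (by rwa [pow_one])
      (below M w).isPrime (below M w).ne_bot hlp'
    rwa [pow_one] at this
  have h5 : l ^ Module.finrank M L ∣ f := by
    refine Pool.Agent.Helper17.BR.pow_dvd_of_pow_dvd (N := nm (below M w)) hlp (by omega) h1 ?_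
      hnd (by rw [← hf]; exact hdw')
    rintro rfl
    obtain ⟨i, hi⟩ := h4 hl
    have := Pool.Agent.Helper17.BR.dvd_absNorm_sub_one (J := 2) Nat.prime_two
      (by norm_num; exact hi) (below M w).isPrime (below M w).ne_bot hlp'
    have h6 : 2 ^ 2 ∣ nm (below M w) - 1 := this
    norm_num at h6
    exact h6
  have h6 := Nat.le_of_dvd hf0 h5
  have h7 : Module.finrank M L < l ^ Module.finrank M L := Nat.lt_pow_self hlp.one_lt
  omega

end Pool.Agent.Helper82.TW
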